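import Pool.Agent.Work.MP_d266e7_co.P24.Trace
import Pool.Agent.Work.MP_d266e7_co.P24Q.QX15m

/-!
A checker for small families of `m` nodes; the digits of `sp` are the sizes of the nodes. A block is coded by the set of
its nodes (a number below `2 ^ m`). A state consists of the list `B` of the codes of the blocks
found so far, the set `A` of the codes allowed for the other blocks, and the set `D` of the numbers
`t * 2 ^ m + X` such that the nodes outside `X` are met by `t` blocks.
-/

namespace Pool.Agent.Work.MP_d266e7_co.Win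

open C5.P24.X15 (ev ev_eq allLt allLt_spec)

/-- case trees -/
inductive Ct
  | cut (p n K : ℕ)
  | lp (p n K : ℕ) (t : Ct)
  | br (y s : ℕ) (t1 t2 : Ct)
  | disc (W i j : ℕ)
  | tr (a b y k : ℕ)
  | four (a b : ℕ)
  | emp

def bit (i : ℕ) : ℕ := Nat.shiftLeft 1 i

/-- `A` without `X` -/
def an (A X : ℕ) : ℕ := Nat.xor A (Nat.land A X)

/-- evaluate the argument first -/
def evn (n : ℕ) (f : ℕ → ℕ) : ℕ := Nat.rec (f 0) (fun j _ => f (Nat.succ j)) n

/-- the numbers below `tot` with the bit `i` -/
def hs (tot i : ℕ) : ℕ := Nat.shiftLeft (Nat.mul (Nat.div (Nat.pred (bit tot))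
  (Nat.pred (bit (bit (Nat.succ i))))) (Nat.pred (bit (bit i)))) (bit i)

def HsOk (m tot : ℕ) : Bool :=
  allLt m fun i => ev (hs tot i) fun x => Nat.blt x (bit tot) &&
    allLt tot fun j => !x.testBit j || j.testBit i

def shr (tot Z i : ℕ) : ℕ := Nat.lor Z (Nat.shiftRight (Nat.land Z (hs tot i)) (bit i))

/-- one more block, on the nodes `a`, `b`, `c` -/
def upd (m tot D a b c : ℕ) : ℕ :=
  evn (shr tot D a) fun Z1 => evn (shr tot Z1 b) fun Z2 =>
    Nat.lor D (Nat.mod (Nat.shiftLeft (shr tot Z2 c) (bit m)) (bit tot))

def iniD (m tot : ℕ) : ℕ :=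
  Nat.rec (bit (Nat.pred (bit m))) (fun i D => evn D fun D => upd m tot D i i i) m

def dig (p i : ℕ) : ℕ := Nat.mod (Nat.shiftRight p (Nat.mul 10 i)) 1024

/-- sum of the weights of the nodes of `z` -/
def ws (m p z : ℕ) : ℕ :=
  Nat.rec 0 (fun i s => cond (z.testBit i) (Nat.add s (dig p i)) s) m

def lsum (g : ℕ → ℕ) (B : List ℕ) : ℕ := List.rec 0 (fun y _ s => Nat.add (g y) s) B

def lall (g : ℕ → Bool) (B : List ℕ) : Bool := List.rec true (fun y _ s => g y && s) B

/-- the position of the lowest bit of `A`, for positions below `512` -/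
def lg (A : ℕ) : ℕ := Nat.mod (Nat.shiftRight
  6217896130746610156096708233124008825828726394933570036968681947211507863547299428558570216097235657280344758215978027435684880025791727632407249939804675390201921379640586485031717647891345173836607789998343101793159013254823655024224577363806114857664534570302900029402732361557666366851684086400447150515342631553678941713255423056323721865950221689518219548893007792248150210925470226903767363895007435844852106235964116068814286238869926647066532316140396778827408701985928251762699581612425251145316442373074225488194287604502978969842615360041238772087510390232750563648934422090255354731478026121220164448417674562874041480157134639402321066944040645242553054623935599238525636299343732669397537096142311923879693837482210307137898054134656036184418528026832947474457015205240434071976769113889664888037880089555981020186759217789284689217251570344643208426418061855444365116005453101830079801745806182976428808098905856014982243348061923036012036832718653776983902047115852507796319767686071398298096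8238856387915830794805335902171041490919446772475003588842421424653687521096567449257273796968492232202946432751920579680145833984476414359212657776586940655532765083645978299793646744803605104331485321189020589554643018301422318773002340587487817795044288652088065564771773942077768243083051171109360017373860912807008382676036218500679998422754906804648619342037953285732377824636115181274624640180460505506968172608988406243235354632977122346271958167513179780674585190880102740510199365164357935557045236562803245770469478112875680622356862185834323008507871232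
  (Nat.mul 10 (Nat.mod (Nat.xor A (Nat.land A (Nat.sub A 1))) 523))) 1024

def allB (f : ℕ → Bool) (fuel : ℕ) : ℕ → Bool :=
  Nat.rec (fun A => Nat.beq A 0) (fun _ ih A => cond (Nat.beq A 0) true
    (ev (lg A) fun z => f z && ev (Nat.xor A (bit z)) ih)) fuel

/-- the union of the sets `f z` for `z` in `A`, or more -/
def unB (f : ℕ → ℕ) (fuel : ℕ) : ℕ → ℕ :=
  Nat.rec (fun _ => 0) (fun _ ih A => cond (Nat.beq A 0) 0
    (evn (lg A) fun z => Nat.lor (f z) (evn (Nat.xor A (bit z)) ih))) fuel

def cnt (B : List ℕ) (a : ℕ) : ℕ := lsum (fun y => (y.testBit a).toNat) B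

def cnt2 (B : List ℕ) (a b : ℕ) : ℕ := lsum (fun y => (y.testBit a && y.testBit b).toNat) B

def sat (tot sp : ℕ) (B : List ℕ) (a : ℕ) : ℕ :=
  cond (Nat.ble (dig sp a) (cnt B a)) (hs tot a) 0

/-- sum of the weights times the sizes -/
def wz (m sp p : ℕ) : ℕ := Nat.rec 0 (fun i s => Nat.add s (Nat.mul (dig sp i) (dig p i))) m

def sw (a b z : ℕ) : ℕ := cond (z.testBit a == z.testBit b) z (Nat.xor z (Nat.xor (bit a) (bit b)))

def swOk (m sp : ℕ) (B : List ℕ) (A a b : ℕ) : Bool :=
  Nat.blt a m && Nat.blt b m && Nat.beq (dig sp a) (dig sp b) &&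
    lall (fun y => y.testBit a == y.testBit b) B && allB (fun z => A.testBit (sw a b z)) 999 A

/-- the codes obtained from those of `O` by the exchanges listed in `s` -/
def orb (m sp : ℕ) (B : List ℕ) (A : ℕ) (fuel : ℕ) : ℕ → ℕ → ℕ :=
  Nat.rec (fun _ O => O) (fun _ ih s O => cond (Nat.beq s 0) O
    (evn (Nat.mod s 16) fun a => evn (Nat.mod (Nat.div s 16) 16) fun b =>
      cond (swOk m sp B A a b) (evn (Nat.lor O (unB (fun z => cond (O.testBit z) (bit (sw a b z)) 0)
        999 O)) (ih (Nat.div s 256))) O)) fuel

def lhs (m sp nn : ℕ) (B : List ℕ) (p n K : ℕ) : ℕ :=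
  Nat.add (Nat.add (Nat.mul K (Nat.sub nn (lsum (fun _ => 1) B)))
    (wz m sp n)) (lsum (ws m p) B)

def rhs (m sp : ℕ) (B : List ℕ) (p n : ℕ) : ℕ :=
  Nat.add (wz m sp p) (lsum (ws m n) B)

def lpOk (m A p n K : ℕ) : Bool := allB (fun z => Nat.ble (ws m p z) (Nat.add K (ws m n z))) 999 A

def sepOk (W y : ℕ) : Bool := Nat.beq (Nat.land y W) 0 || Nat.beq (Nat.land y W) y

/-- the checker; `tp` is the position of the last level of `D` -/
noncomputable def chk (m sp nn tot tp : ℕ) (t : Ct) : List ℕ → ℕ → ℕ → Bool :=
  Ct.rec (motive := fun _ => List ℕ → ℕ → ℕ → Bool)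
    (fun p n K B _ A => lpOk m A p n K && Nat.blt (lhs m sp nn B p n K) (rhs m sp B p n))
    (fun p n K _ ih B D A => lpOk m A p n K && ev (lhs m sp nn B p n K) fun l => ev (rhs m sp B p n)
      fun r => ev (an A (unB (fun z => cond (A.testBit z && Nat.blt (Nat.add l (ws m p z))
        (Nat.add (Nat.add K (ws m n z)) r)) (bit z) 0) 999 A)) (ih B D))
    (fun y s _ _ ih1 ih2 B D A => ev (Nat.mod y 16) fun a => ev (Nat.mod (Nat.div y 16) 16) fun b =>
      ev (Nat.div y 256) fun c => ev (Nat.lor (bit a) (Nat.lor (bit b) (bit c))) fun z =>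
        (Nat.blt a m && Nat.blt b m && Nat.blt c m) &&
        (ev (upd m tot D a b c) fun D' => ev (an A (Nat.lor (Nat.lor (Nat.shiftRight D' tp)
          (sat tot sp (z :: B) a)) (Nat.lor (sat tot sp (z :: B) b) (sat tot sp (z :: B) c))))
            (ih1 (z :: B) D')) &&
        ev (an A (orb m sp B A 99 s (bit z))) (ih2 B D))
    (fun W i j B _ A => Nat.blt i m && Nat.blt j m && W.testBit i && !W.testBit j &&
      lall (sepOk W) B && allB (sepOk W) 999 A)
    (fun a b y k B _ _ => (Nat.blt a m && Nat.blt b m && Nat.blt y m && Nat.blt k m) &&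
      (Nat.beq (dig sp a) 5 && Nat.beq (dig sp b) 5 && Nat.beq (dig sp y) 5) &&
      (Nat.ble 5 (cnt B a) && Nat.ble 5 (cnt B b) && Nat.beq (cnt2 B a b) 3) &&
      lall (fun z => (z.testBit a == z.testBit b) || z.testBit y) B &&
      (!Nat.beq k a && !Nat.beq k b && !lall (fun z => !(z.testBit a && z.testBit b && z.testBit k)) B))
    (fun a b B _ _ => !Nat.beq a b && Nat.blt a m && Nat.blt b m &&
      (Nat.ble 4 (cnt2 B a b) || Nat.ble (dig sp a) (cnt2 B a b)))
    (fun B _ A => Nat.beq A 0 && Nat.blt (lsum (fun _ => 1) B) nn) t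

theorem evn_eq (n : ℕ) (f : ℕ → ℕ) : evn n f = f n := by cases n <;> rfl

theorem bit_eq (i : ℕ) : bit i = 2 ^ i := Nat.one_shiftLeft i

theorem bit_test (i j : ℕ) : (bit i).testBit j = decide (i = j) := by
  rw [bit_eq, Nat.testBit_two_pow]

theorem lor_test (a b j : ℕ) : (Nat.lor a b).testBit j = (a.testBit j || b.testBit j) :=
  Nat.testBit_or a b j

theorem land_test (a b j : ℕ) : (Nat.land a b).testBit j = (a.testBit j && b.testBit j) :=
  Nat.testBit_and a b j

theorem xor_test (a b j : ℕ) : (Nat.xor a b).testBit j = (a.testBit j ^^ b.testBit j) :=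
  Nat.testBit_xor a b j

theorem shr_test (a b j : ℕ) : (Nat.shiftRight a b).testBit j = a.testBit (b + j) :=
  Nat.testBit_shiftRight a

theorem an_test (A X j : ℕ) : (an A X).testBit j = (A.testBit j && !X.testBit j) := by
  rw [an, xor_test, land_test]
  cases A.testBit j <;> cases X.testBit j <;> rfl

theorem lsum_eq (g : ℕ → ℕ) (B : List ℕ) : lsum g B = (B.map g).sum := by
  induction B with
  | nil => rfl
  | cons y B ih => rw [List.map_cons, List.sum_cons, ← ih]; rfl

theorem lall_spec {g : ℕ → Bool} {B : List ℕ} (h : lall g B = true) : ∀ y ∈ B, g y = true := by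
  induction B with
  | nil => intro y hy; cases hy
  | cons x B ih =>
    have h' : (g x && lall g B) = true := h
    rw [Bool.and_eq_true] at h'
    intro y hy
    rcases List.mem_cons.1 hy with rfl | hy
    exacts [h'.1, ih h'.2 y hy]

theorem lall_false {g : ℕ → Bool} {B : List ℕ} (h : lall g B = false) : ∃ y ∈ B, g y = false := by
  induction B with
  | nil => cases h
  | cons x B ih =>
    have h' : (g x && lall g B) = false := h
    rw [Bool.and_eq_false_iff] at h'
    rcases h' with h' | h'
    · exact ⟨x, List.mem_cons_self, h'⟩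
    · obtain ⟨y, h1, h2⟩ := ih h'
      exact ⟨y, List.mem_cons_of_mem _ h1, h2⟩

theorem allB_spec {f : ℕ → Bool} {k : ℕ} : ∀ {A : ℕ}, allB f k A = true →
    ∀ z, A.testBit z = true → f z = true := by
  induction k with
  | zero =>
    intro A h z hz
    have h' : Nat.beq A 0 = true := h
    rw [Nat.eq_of_beq_eq_true h', Nat.zero_testBit] at hz
    cases hz
  | succ k ih =>
    intro A h z hz
    have h' : cond (Nat.beq A 0) true (ev (lg A) fun z => f z &&
      ev (Nat.xor A (bit z)) (allB f k)) = true := h
    cases e : Nat.beq A 0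
    · rw [e, cond_false, ev_eq, ev_eq, Bool.and_eq_true] at h'
      by_cases k : lg A = z
      · exact k ▸ h'.1
      · refine ih h'.2 z ?_
        rw [xor_test, bit_test, hz, decide_eq_false k]
        rfl
    · rw [Nat.eq_of_beq_eq_true e, Nat.zero_testBit] at hz
      cases hz

theorem unB_spec {f : ℕ → ℕ} {k : ℕ} : ∀ {A j : ℕ}, (unB f k A).testBit j = true →
    ∃ z, (f z).testBit j = true := by
  induction k with
  | zero =>
    intro A j h
    have h' : (0 : ℕ).testBit j = true := h
    rw [Nat.zero_testBit] at h'
    cases h'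
  | succ k ih =>
    intro A j h
    have h' : (cond (Nat.beq A 0) 0 (evn (lg A) fun z => Nat.lor (f z)
      (evn (Nat.xor A (bit z)) (unB f k)))).testBit j = true := h
    cases e : Nat.beq A 0
    · rw [e, cond_false, evn_eq, evn_eq, lor_test, Bool.or_eq_true] at h'
      exact h'.elim (fun a => ⟨_, a⟩) ih
    · rw [e, cond_true, Nat.zero_testBit] at h'
      cases h'

theorem cond_bit {c : Bool} {x j : ℕ} (h : (cond c (bit x) 0).testBit j = true) :
    c = true ∧ x = j := by
  cases c
  · rw [cond_false, Nat.zero_testBit] at h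
    cases h
  · rw [cond_true, bit_test] at h
    exact ⟨rfl, of_decide_eq_true h⟩

theorem ws_eq (m p z : ℕ) :
    ws m p z = ∑ i ∈ Finset.range m, if z.testBit i = true then dig p i else 0 := by
  induction m with
  | zero => rfl
  | succ m ih =>
    rw [Finset.sum_range_succ, ← ih]
    have : ws (m + 1) p z = cond (z.testBit m) (Nat.add (ws m p z) (dig p m)) (ws m p z) := rfl
    rw [this]
    cases z.testBit m <;> rfl

theorem wz_eq (m sp p : ℕ) : wz m sp p = ∑ i ∈ Finset.range m, dig sp i * dig p i := by
  induction m with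
  | zero => rfl
  | succ m ih =>
    rw [Finset.sum_range_succ, ← ih]
    rfl

theorem hs_spec {m tot : ℕ} (h : HsOk m tot = true) {i j : ℕ} (hi : i < m)
    (hj : (hs tot i).testBit j = true) : j.testBit i = true := by
  have h1 := allLt_spec h i hi
  rw [ev_eq, Bool.and_eq_true, Nat.blt_eq, bit_eq] at h1
  have h2 : j < tot := by
    by_contra k
    rw [Nat.testBit_lt_two_pow (h1.1.trans_le (Nat.pow_le_pow_right (by omega) (by omega)))] at hj
    cases hj
  have h3 := allLt_spec h1.2 j h2
  rwa [hj, Bool.not_true, Bool.false_or] at h3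

theorem add_pow_div {i j k : ℕ} (h : (2 ^ i + j).testBit i = true) (hk : i < k) :
    (2 ^ i + j) / 2 ^ k = j / 2 ^ k := by
  rw [Nat.testBit_two_pow_add_eq, Nat.testBit_eq_decide_div_mod_eq] at h
  obtain ⟨d, rfl⟩ : ∃ d, k = i + (1 + d) := ⟨k - i - 1, by omega⟩
  rw [pow_add, pow_add, ← Nat.div_div_eq_div_mul, ← Nat.div_div_eq_div_mul,
    ← Nat.div_div_eq_div_mul, ← Nat.div_div_eq_div_mul, Nat.add_div_left _ (Nat.two_pow_pos i)]
  congr 1
  simp only [Bool.not_eq_true', decide_eq_false_iff_not] at h
  omega

theorem add_pow_test {i j k : ℕ} (h : (2 ^ i + j).testBit i = true) (hk : k ≠ i) :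
    (2 ^ i + j).testBit k = j.testBit k := by
  rcases Nat.lt_or_gt_of_ne hk with a | a
  · exact Nat.testBit_two_pow_add_gt a j
  · rw [Nat.testBit_eq_decide_div_mod_eq, Nat.testBit_eq_decide_div_mod_eq, add_pow_div h a]

theorem sw_test (a b z i : ℕ) : (sw a b z).testBit i = z.testBit (Equiv.swap a b i) := by
  unfold sw
  by_cases h1 : i = a
  · subst h1
    rw [Equiv.swap_apply_left]
    by_cases h2 : b = i
    · subst h2
      simp
    · cases e1 : z.testBit i <;> cases e2 : z.testBit b <;>
        simp [bit_test, e1, h2]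
  by_cases h2 : i = b
  · subst h2
    rw [Equiv.swap_apply_right]
    cases e1 : z.testBit a <;> cases e2 : z.testBit i <;>
      simp [bit_test, e2, Ne.symm h1]
  · rw [Equiv.swap_apply_of_ne_of_ne h1 h2]
    cases (z.testBit a == z.testBit b) <;> simp [bit_test, Ne.symm h1, Ne.symm h2]

end Pool.Agent.Work.MP_d266e7_co.Win
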