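import Pool.Agent.Work.MP_d266e7_co.Win.Defs
import Pool.Agent.Work.MP_d266e7_co.Full.GDefs
import Mathlib.Algebra.BigOperators.Ring.Finset

/-!
Soundness of the checker `chk`.
-/

namespace Pool.Agent.Work.MP_d266e7_co.Win

open Finset C5 C5.P24 Mix
open C5.P24.X15 (ev ev_eq allLt allLt_spec)

variable {V : Type} [DecidableEq V]

/-- the hypotheses on the family -/
structure Hyp (H : Finset (Finset V)) (nn T : ℕ) : Prop where
  cls : Cls H
  mc : MC H
  tr : ∀ c w, Trc H c w → Pend H c w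
  n : (cov H).card = nn
  t : T + 2 ≤ tau H

/-- names of the nodes -/
structure Nm (H : Finset (Finset V)) (m sp : ℕ) (q : ℕ → Finset V) : Prop where
  mem : ∀ i, i < m → q i ∈ H
  inj : ∀ i, i < m → ∀ j, j < m → q i = q j → i = j
  all : ∀ e ∈ H, ∃ i, i < m ∧ q i = e
  sz : ∀ i, i < m → (q i).card = dig sp i

/-- code of a block -/
def cd (m : ℕ) (q : ℕ → Finset V) (v : V) : ℕ := Nat.ofBits fun i : Fin m => decide (v ∈ q i)

/-- `R` is the set of the blocks not yet found -/
structure St (H : Finset (Finset V)) (m : ℕ) (q : ℕ → Finset V) (B : List ℕ) (A : ℕ)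
    (R : Finset V) : Prop where
  sub : R ⊆ cov H
  used : (cov H \ R).val.map (cd m q) = (B : Multiset ℕ)
  al : ∀ v ∈ R, A.testBit (cd m q v) = true

def Cv (m : ℕ) (q : ℕ → Finset V) (y j : ℕ) : Prop :=
  ∃ T : Finset V, T.card ≤ j / 2 ^ m ∧
    ∀ i, i < m → j.testBit i = true ∨ y.testBit i = true ∨ ∃ v ∈ T, v ∈ q i

def DOk (m : ℕ) (q : ℕ → Finset V) (y D : ℕ) : Prop := ∀ j, D.testBit j = true → Cv m q y j

variable {H : Finset (Finset V)} {m sp nn T tot : ℕ} {q : ℕ → Finset V} {B : List ℕ} {A D : ℕ}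
  {R : Finset V}

theorem mk_test (v : V) (i : ℕ) : (cd m q v).testBit i = (decide (i < m) && decide (v ∈ q i)) := by
  rw [cd, Nat.testBit_ofBits]
  split_ifs with h <;> simp [h]

theorem mk_iff {v : V} {i : ℕ} (h : i < m) : (cd m q v).testBit i = true ↔ v ∈ q i := by
  simp [mk_test, h]

theorem mk_lt (v : V) : cd m q v < 2 ^ m := Nat.ofBits_lt_two_pow _

omit [DecidableEq V] in
theorem DOk.shr (hs' : HsOk m tot = true) {y i : ℕ} (h : DOk m q y D) (hi : i < m)
    (hy : y.testBit i = true) : DOk m q y (shr tot D i) := fun j hj => by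
  rw [Win.shr, lor_test, shr_test, land_test, Bool.or_eq_true, Bool.and_eq_true, bit_eq] at hj
  rcases hj with hj | ⟨h1, h2⟩
  · exact h j hj
  · have h3 := hs_spec hs' hi h2
    obtain ⟨T, h4, h5⟩ := h _ h1
    refine ⟨T, add_pow_div h3 hi ▸ h4, fun k hk => ?_⟩
    by_cases e : k = i
    · exact Or.inr (Or.inl (e ▸ hy))
    · exact add_pow_test h3 e ▸ h5 k hk

theorem DOk.upd (hs' : HsOk m tot = true) {a b c : ℕ} (h : DOk m q 0 D) (ha : a < m) (hb : b < m)
    (hc : c < m) {v : V} (va : v ∈ q a) (vb : v ∈ q b) (vc : v ∈ q c) :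
    DOk m q 0 (upd m tot D a b c) := fun j hj => by
  rw [Win.upd, evn_eq, evn_eq, lor_test, Bool.or_eq_true] at hj
  rcases hj with hj | hj
  · exact h j hj
  have h0 : DOk m q (cd m q v) D := fun j hj => by
    obtain ⟨T, h1, h2⟩ := h j hj
    exact ⟨T, h1, fun i hi => (h2 i hi).imp_right fun k => k.imp_left fun k => by simp at k⟩
  have h1 := ((h0.shr hs' ha ((mk_iff ha).2 va)).shr hs' hb ((mk_iff hb).2 vb)).shr hs' hc
    ((mk_iff hc).2 vc)
  have hj' : ((Win.shr tot (Win.shr tot (Win.shr tot D a) b) c <<< bit m) % bit tot).testBit j =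
      true := hj
  rw [bit_eq tot, Nat.testBit_mod_two_pow, Nat.testBit_shiftLeft, bit_eq] at hj'
  simp only [Bool.and_eq_true, decide_eq_true_eq] at hj'
  obtain ⟨T, h2, h3⟩ := h1 _ hj'.2.2
  obtain ⟨k, rfl⟩ : ∃ k, j = 2 ^ m + k := ⟨j - 2 ^ m, by omega⟩
  rw [Nat.add_sub_cancel_left] at h2 h3
  refine ⟨insert v T, (card_insert_le _ _).trans ?_, fun i hi => ?_⟩
  · rw [Nat.add_div_left _ (Nat.two_pow_pos m)]
    omega
  · rw [Nat.testBit_two_pow_add_gt hi]
    rcases h3 i hi with a | a | ⟨u, a, b⟩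
    exacts [Or.inl a, Or.inr (Or.inr ⟨v, mem_insert_self _ _, (mk_iff hi).1 a⟩),
      Or.inr (Or.inr ⟨u, mem_insert_of_mem a, b⟩)]

theorem dok_ini (hs' : HsOk m tot = true) (h : ∀ i, i < m → ∃ v, v ∈ q i) :
    DOk m q 0 (iniD m tot) := by
  have key : ∀ k, k ≤ m → DOk m q 0 (Nat.rec (bit (Nat.pred (bit m)))
      (fun i D => evn D fun D => upd m tot D i i i) k) := by
    intro k
    induction k with
    | zero =>
      intro _ j hj
      have hj' : (bit (Nat.pred (bit m))).testBit j = true := hj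
      rw [bit_test, decide_eq_true_eq, bit_eq] at hj'
      refine ⟨∅, Nat.zero_le _, fun i hi => Or.inl ?_⟩
      rw [← hj', Nat.pred_eq_sub_one, Nat.testBit_two_pow_sub_one]
      exact decide_eq_true hi
    | succ k ih =>
      intro hk
      obtain ⟨v, hv⟩ := h k hk
      have := (ih (by omega)).upd hs' hk hk hk hv hv hv
      rwa [← evn_eq _ fun D => upd m tot D k k k] at this
  exact key m le_rfl

theorem St.sum (s : St H m q B A R) (g : ℕ → ℕ) : lsum g B = ∑ v ∈ cov H \ R, g (cd m q v) := by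
  rw [lsum_eq, ← Multiset.sum_coe, ← Multiset.map_coe, ← s.used, Multiset.map_map]
  rfl

theorem St.ex (s : St H m q B A R) {y : ℕ} (h : y ∈ B) : ∃ v ∈ cov H \ R, cd m q v = y := by
  have : y ∈ (cov H \ R).val.map (cd m q) := s.used ▸ Multiset.mem_coe.2 h
  exact Multiset.mem_map.1 this

theorem St.mem (s : St H m q B A R) {v : V} (h : v ∈ cov H \ R) : cd m q v ∈ B := by
  have : cd m q v ∈ (cov H \ R).val.map (cd m q) := Multiset.mem_map_of_mem _ h
  rwa [s.used, Multiset.mem_coe] at this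

theorem St.len (s : St H m q B A R) (h : Hyp H nn T) : lsum (fun _ => 1) B + R.card = nn := by
  rw [s.sum, ← card_eq_sum_ones, card_sdiff_add_card_eq_card s.sub, h.n]

theorem St.cnt (s : St H m q B A R) {a : ℕ} (ha : a < m) :
    cnt B a = ((cov H \ R).filter fun v => v ∈ q a).card := by
  rw [Win.cnt, s.sum, card_filter]
  refine sum_congr rfl fun v _ => ?_
  by_cases k : v ∈ q a <;> simp [mk_test, ha, k]

theorem St.cnt2 (s : St H m q B A R) {a b : ℕ} (ha : a < m) (hb : b < m) :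
    cnt2 B a b = ((cov H \ R).filter fun v => v ∈ q a ∩ q b).card := by
  rw [Win.cnt2, s.sum, card_filter]
  refine sum_congr rfl fun v _ => ?_
  by_cases k : v ∈ q a <;> by_cases k' : v ∈ q b <;> simp [mk_test, ha, hb, k, k']

theorem St.full (s : St H m q B A R) (n : Nm H m sp q) {a : ℕ} (ha : a < m)
    (h5 : dig sp a ≤ Win.cnt B a) : q a ⊆ cov H \ R := by
  rw [s.cnt ha, ← n.sz a ha] at h5
  have := eq_of_subset_of_card_le (fun v hv => (mem_filter.1 hv).2) h5
  exact this ▸ filter_subset _ _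

theorem sum_ws (n : Nm H m sp q) (p : ℕ) : ∑ v ∈ cov H, ws m p (cd m q v) = wz m sp p := by
  simp only [ws_eq]
  rw [sum_comm, wz_eq]
  refine sum_congr rfl fun i hi => ?_
  have hi' := mem_range.1 hi
  simp only [mk_iff hi']
  rw [← sum_filter, filter_mem_eq_inter,
    inter_eq_right.2 fun v hv => mem_cov.2 ⟨_, n.mem i hi', hv⟩, sum_const, n.sz i hi',
    smul_eq_mul]

theorem St.lp (s : St H m q B A R) (h : Hyp H nn T) (n : Nm H m sp q) {p k K : ℕ}
    (ok : lpOk m A p k K = true) : rhs m sp B p k ≤ lhs m sp nn B p k K ∧ ∀ v ∈ R,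
      K + ws m k (cd m q v) + rhs m sp B p k ≤ lhs m sp nn B p k K + ws m p (cd m q v) := by
  have a : ∀ v ∈ R, ws m p (cd m q v) ≤ K + ws m k (cd m q v) := fun v hv =>
    Nat.le_of_ble_eq_true (allB_spec ok _ (s.al v hv))
  have b := sum_ws n p
  have c := sum_ws n k
  rw [← sum_sdiff s.sub, ← s.sum] at b c
  have d := s.len h
  have e : nn - lsum (fun _ => 1) B = R.card := by omega
  have f : ∑ v ∈ R, (K + ws m k (cd m q v) - ws m p (cd m q v)) + ∑ v ∈ R, ws m p (cd m q v) =
      K * R.card + ∑ v ∈ R, ws m k (cd m q v) := by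
    rw [← sum_add_distrib, sum_congr rfl fun v hv => Nat.sub_add_cancel (a v hv), sum_add_distrib,
      sum_const, smul_eq_mul, mul_comm]
  simp only [lhs, rhs, Nat.add_eq, Nat.mul_eq, Nat.sub_eq, e]
  refine ⟨by omega, fun v hv => ?_⟩
  have g := single_le_sum (f := fun v => K + ws m k (cd m q v) - ws m p (cd m q v))
    (fun _ _ => Nat.zero_le _) hv
  have g' := a v hv
  omega

theorem St.anti (s : St H m q B A R) {X : ℕ} (h : ∀ v ∈ R, X.testBit (cd m q v) = true → False) :
    St H m q B (an A X) R := ⟨s.sub, s.used, fun v hv => by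
  rw [an_test, s.al v hv, Bool.true_and, Bool.not_eq_true', ← Bool.not_eq_true]
  exact h v hv⟩

theorem St.use (s : St H m q B A R) {v : V} (hv : v ∈ R) :
    St H m q (cd m q v :: B) A (R.erase v) := by
  refine ⟨(erase_subset _ _).trans s.sub, ?_, fun u hu => s.al u (mem_of_mem_erase hu)⟩
  have : cov H \ R.erase v = insert v (cov H \ R) := by
    ext u
    simp only [mem_sdiff, mem_erase, mem_insert]
    refine ⟨fun k => by tauto, fun k => k.elim (fun e => ⟨e ▸ s.sub hv, fun k => k.1 e⟩) (by tauto)⟩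
  rw [this, insert_val_of_notMem (by simp [hv]), Multiset.map_cons, s.used]
  rfl

omit [DecidableEq V] in
theorem Nm.swap (n : Nm H m sp q) {a b : ℕ} (ha : a < m) (hb : b < m)
    (e : dig sp a = dig sp b) :
    Nm H m sp (q ∘ Equiv.swap a b) := by
  have l : ∀ i, i < m → Equiv.swap a b i < m := fun i hi => by
    rw [Equiv.swap_apply_def]
    split_ifs <;> assumption
  refine ⟨fun i hi => n.mem _ (l i hi), fun i hi j hj e =>
    (Equiv.swap a b).injective (n.inj _ (l i hi) _ (l j hj) e), fun e he => ?_, fun i hi => ?_⟩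
  · obtain ⟨i, hi, rfl⟩ := n.all e he
    exact ⟨Equiv.swap a b i, l i hi, by simp⟩
  · rw [Function.comp_apply, n.sz _ (l i hi), Equiv.swap_apply_def]
    split_ifs with h1 h2
    exacts [h1 ▸ e.symm, h2 ▸ e, rfl]

theorem mk_swap {a b : ℕ} (ha : a < m) (hb : b < m) (v : V) :
    cd m (q ∘ Equiv.swap a b) v = sw a b (cd m q v) := Nat.eq_of_testBit_eq fun i => by
  rw [sw_test, mk_test, mk_test]
  congr 2
  rw [Equiv.swap_apply_def]
  split_ifs with h1 h2 <;> simp [*]

theorem sw_sw (a b z : ℕ) : sw a b (sw a b z) = z := Nat.eq_of_testBit_eq fun i => by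
  rw [sw_test, sw_test, Equiv.swap_apply_self]

theorem St.swap (s : St H m q B A R) {a b : ℕ} (ok : swOk m sp B A a b = true) :
    St H m (q ∘ Equiv.swap a b) B A R := by
  simp only [swOk, Bool.and_eq_true, Nat.blt_eq] at ok
  obtain ⟨⟨⟨⟨ha, hb⟩, -⟩, h1⟩, h2⟩ := ok
  refine ⟨s.sub, s.used ▸ Multiset.map_congr rfl fun v hv => ?_, fun v hv => ?_⟩
  · rw [mk_swap ha hb, sw, lall_spec h1 _ (s.mem hv), cond_true]
  · rw [mk_swap ha hb]
    exact allB_spec h2 _ (s.al v hv)

/-- no block which is not yet found has its code in `O` -/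
def Imp (H : Finset (Finset V)) (m sp : ℕ) (B : List ℕ) (A O : ℕ) : Prop :=
  ∀ q R, Nm H m sp q → St H m q B A R → ∀ v ∈ R, O.testBit (cd m q v) = true → False

theorem imp_orb (k : ℕ) : ∀ s O, Imp H m sp B A O → Imp H m sp B A (orb m sp B A k s O) := by
  induction k with
  | zero => exact fun _ _ h => h
  | succ k ih =>
    intro s O h
    have e : orb m sp B A (k + 1) s O = cond (Nat.beq s 0) O
      (evn (Nat.mod s 16) fun a => evn (Nat.mod (Nat.div s 16) 16) fun b =>
        cond (swOk m sp B A a b) (evn (Nat.lor O (unB (fun z => cond (O.testBit z) (bit (sw a b z)) 0)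
          999 O)) (orb m sp B A k (Nat.div s 256))) O) := rfl
    rw [e, evn_eq, evn_eq, evn_eq]
    cases Nat.beq s 0
    swap
    · exact h
    generalize Nat.mod s 16 = a
    generalize Nat.mod (Nat.div s 16) 16 = b
    cases ok : swOk m sp B A a b
    · exact h
    refine ih _ _ fun q R n st v hv hO => ?_
    rw [lor_test, Bool.or_eq_true] at hO
    rcases hO with hO | hO
    · exact h q R n st v hv hO
    obtain ⟨z, hz⟩ := unB_spec hO
    obtain ⟨h1, h2⟩ := cond_bit hz
    have ok' := ok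
    simp only [swOk, Bool.and_eq_true, Nat.blt_eq, Nat.beq_eq] at ok'
    refine h _ R (n.swap ok'.1.1.1.1 ok'.1.1.1.2 ok'.1.1.2) (st.swap ok) v hv ?_
    rw [mk_swap ok'.1.1.1.1 ok'.1.1.1.2, ← h2, sw_sw, h1]

theorem sep_spec {W y i j : ℕ} (h : sepOk W y = true) (h1 : y.testBit i = true)
    (h2 : W.testBit i = true) (h3 : y.testBit j = true) : W.testBit j = true := by
  rw [sepOk, Bool.or_eq_true, Nat.beq_eq, Nat.beq_eq] at h
  rcases h with h | h
  · have := land_test y W i
    rw [h, h1, h2, Nat.zero_testBit] at this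
    cases this
  · have := land_test y W j
    rw [h, h3, Bool.true_and] at this
    exact this.symm

theorem chk_sound (h : Hyp H nn T) (hs' : HsOk m tot = true) (t : Ct) :
    ∀ (B : List ℕ) (D A : ℕ), chk m sp nn tot (T * 2 ^ m) t B D A = true →
      (∀ q, Nm H m sp q → (∀ y ∈ B, ∃ v, cd m q v = y) → DOk m q 0 D) →
      ∀ q R, Nm H m sp q → ¬ St H m q B A R := by
  induction t with
  | cut p k K =>
    intro B D A c _ q R n s
    have c' : (lpOk m A p k K && Nat.blt (lhs m sp nn B p k K) (rhs m sp B p k)) = true := c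
    rw [Bool.and_eq_true, Nat.blt_eq] at c'
    exact absurd (s.lp h n c'.1).1 (by omega)
  | lp p k K t ih =>
    intro B D A c hD q R n s
    have c' : (lpOk m A p k K && ev (lhs m sp nn B p k K) fun l => ev (rhs m sp B p k)
      fun r => ev (an A (unB (fun z => cond (A.testBit z && Nat.blt (Nat.add l (ws m p z))
        (Nat.add (Nat.add K (ws m k z)) r)) (bit z) 0) 999 A))
          (chk m sp nn tot (T * 2 ^ m) t B D)) = true := c
    rw [Bool.and_eq_true, ev_eq, ev_eq, ev_eq] at c'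
    refine ih B D _ c'.2 hD q R n (s.anti fun v hv k => ?_)
    obtain ⟨z, hz⟩ := unB_spec k
    obtain ⟨h1, rfl⟩ := cond_bit hz
    rw [Bool.and_eq_true, Nat.blt_eq] at h1
    exact absurd ((s.lp h n c'.1).2 v hv) (Nat.not_le.2 h1.2)
  | br y s t1 t2 ih1 ih2 =>
    intro B D A c hD q R n st
    have c' : (ev (Nat.mod y 16) fun a => ev (Nat.mod (Nat.div y 16) 16) fun b =>
      ev (Nat.div y 256) fun c => ev (Nat.lor (bit a) (Nat.lor (bit b) (bit c))) fun z =>
        (Nat.blt a m && Nat.blt b m && Nat.blt c m) &&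
        (ev (upd m tot D a b c) fun D' => ev (an A (Nat.lor (Nat.lor (Nat.shiftRight D' (T * 2 ^ m))
          (sat tot sp (z :: B) a)) (Nat.lor (sat tot sp (z :: B) b) (sat tot sp (z :: B) c))))
            (chk m sp nn tot (T * 2 ^ m) t1 (z :: B) D')) &&
        ev (an A (orb m sp B A 99 s (bit z))) (chk m sp nn tot (T * 2 ^ m) t2 B D)) = true := c
    simp only [ev_eq] at c'
    generalize Nat.mod y 16 = a at c'
    generalize Nat.mod (Nat.div y 16) 16 = b at c'
    generalize Nat.div y 256 = c at c'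
    obtain ⟨z, hz⟩ : ∃ z, z = Nat.lor (bit a) (Nat.lor (bit b) (bit c)) := ⟨_, rfl⟩
    rw [← hz] at c'
    simp only [Bool.and_eq_true, Nat.blt_eq] at c'
    obtain ⟨⟨⟨⟨ha, hb⟩, hc⟩, c1⟩, c2⟩ := c'
    have za : z.testBit a = true := by simp [hz, bit_test]
    have zb : z.testBit b = true := by simp [hz, bit_test]
    have zc : z.testBit c = true := by simp [hz, bit_test]
    have up : ∀ q, Nm H m sp q → (∀ y ∈ z :: B, ∃ v, cd m q v = y) →
        DOk m q 0 (upd m tot D a b c) := fun q n r => by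
      obtain ⟨v, e⟩ := r z List.mem_cons_self
      exact (hD q n fun y hy => r y (List.mem_cons_of_mem _ hy)).upd hs' ha hb hc (v := v)
        ((mk_iff ha).1 (e ▸ za)) ((mk_iff hb).1 (e ▸ zb)) ((mk_iff hc).1 (e ▸ zc))
    have i0 : Imp H m sp B A (bit z) := fun q R n s v hv k => by
      rw [bit_test, decide_eq_true_eq] at k
      have s' := s.use hv
      rw [← k] at s'
      have st : ∀ i, i < m → ∀ u ∈ R.erase v, (sat tot sp (z :: B) i).testBit (cd m q u) = true →
          False := fun i hi u hu k => by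
        rw [sat] at k
        cases e : Nat.ble (dig sp i) (cnt (z :: B) i)
        · rw [e, cond_false, Nat.zero_testBit] at k
          cases k
        · rw [e, cond_true] at k
          exact (mem_sdiff.1 (s'.full n hi (Nat.le_of_ble_eq_true e)
            ((mk_iff hi).1 (hs_spec hs' hi k)))).2 hu
      refine ih1 _ _ _ c1 up q _ n (s'.anti fun u hu k => ?_)
      simp only [lor_test, Bool.or_eq_true] at k
      rcases k with (k | k) | k | k
      · rw [shr_test] at k
        obtain ⟨S, h1, h2⟩ := up q n (fun y hy => (s'.ex hy).imp fun _ => And.right) _ k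
        rw [mul_comm, Nat.mul_add_div (Nat.two_pow_pos m), Nat.div_eq_of_lt (mk_lt u)] at h1
        have h3 := tau_le (S := H) (T := insert u S) fun e he => by
          obtain ⟨i, hi, rfl⟩ := n.all e he
          rcases h2 i hi with r | r | ⟨x, r1, r2⟩
          · rw [mul_comm, Nat.testBit_two_pow_mul_add _ (mk_lt u), if_pos hi] at r
            exact ⟨u, (mk_iff hi).1 r, mem_insert_self _ _⟩
          · simp at r
          · exact ⟨x, r2, mem_insert_of_mem r1⟩
        have h4 := card_insert_le u S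
        have h5 := h.t
        omega
      exacts [st a ha u hu k, st b hb u hu k, st c hc u hu k]
    exact ih2 B D _ c2 hD q R n (st.anti (imp_orb 99 s _ i0 q R n st))
  | disc W i j =>
    intro B D A c _ q R n s
    have c' : (Nat.blt i m && Nat.blt j m && W.testBit i && !W.testBit j &&
      lall (sepOk W) B && allB (sepOk W) 999 A) = true := c
    simp only [Bool.and_eq_true, Nat.blt_eq, Bool.not_eq_true'] at c'
    obtain ⟨⟨⟨⟨⟨hi, hj⟩, wi⟩, wj⟩, c1⟩, c2⟩ := c'
    obtain ⟨u, hu, e, he, ne, v, v1, v2⟩ := h.mc.conn (((range m).filter fun k => W.testBit k = true).image q)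
      (fun e he => by
        obtain ⟨k, hk, rfl⟩ := mem_image.1 he
        exact n.mem k (mem_range.1 (mem_filter.1 hk).1))
      ⟨q i, mem_image_of_mem q (mem_filter.2 ⟨mem_range.2 hi, wi⟩)⟩ fun e => by
        obtain ⟨k, hk, e'⟩ := mem_image.1 (e ▸ n.mem j hj)
        obtain ⟨k1, k2⟩ := mem_filter.1 hk
        rw [n.inj k (mem_range.1 k1) j hj e', wj] at k2
        cases k2
    obtain ⟨k, hk, rfl⟩ := mem_image.1 hu
    obtain ⟨k1, k2⟩ := mem_filter.1 hk
    obtain ⟨l, hl, rfl⟩ := n.all e he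
    have sp : sepOk W (cd m q v) = true := by
      by_cases r : v ∈ R
      · exact allB_spec c2 _ (s.al v r)
      · exact lall_spec c1 _ (s.mem (mem_sdiff.2 ⟨mem_cov.2 ⟨_, he, v2⟩, r⟩))
    exact ne (mem_image_of_mem q (mem_filter.2 ⟨mem_range.2 hl,
      sep_spec sp ((mk_iff (mem_range.1 k1)).2 v1) k2 ((mk_iff hl).2 v2)⟩))
  | tr a b y k =>
    intro B D A c _ q R n s
    have c' : ((Nat.blt a m && Nat.blt b m && Nat.blt y m && Nat.blt k m) &&
      (Nat.beq (dig sp a) 5 && Nat.beq (dig sp b) 5 && Nat.beq (dig sp y) 5) &&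
      (Nat.ble 5 (cnt B a) && Nat.ble 5 (cnt B b) && Nat.beq (cnt2 B a b) 3) &&
      lall (fun z => (z.testBit a == z.testBit b) || z.testBit y) B &&
      (!Nat.beq k a && !Nat.beq k b &&
        !lall (fun z => !(z.testBit a && z.testBit b && z.testBit k)) B)) = true := c
    simp only [Bool.and_eq_true, Nat.blt_eq, Nat.ble_eq, Nat.beq_eq, Bool.not_eq_true',
      ← Bool.not_eq_true (Nat.beq _ _)] at c'
    obtain ⟨⟨⟨⟨⟨⟨⟨ha, hb⟩, hy⟩, hk⟩, ⟨a5, b5⟩, y5⟩, ⟨fa, fb⟩, c3⟩, c4⟩, ⟨ka, kb⟩, c5⟩ := c'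
    have sa := s.full n ha (a5 ▸ fa)
    have sb := s.full n hb (b5 ▸ fb)
    rw [← n.sz a ha] at a5
    rw [← n.sz b hb] at b5
    rw [← n.sz y hy] at y5
    rw [s.cnt2 ha hb, filter_mem_eq_inter, inter_eq_right.2 (inter_subset_left.trans sa)] at c3
    have w : sd (q a) (q b) ⊆ q y := fun v hv => by
      have k := lall_spec c4 _ (s.mem (v := v)
        ((mem_sd.1 hv).elim (fun k => sa k.1) fun k => sb k.2))
      rcases mem_sd.1 hv with ⟨k1, k2⟩ | ⟨k1, k2⟩ <;> simpa [mk_test, ha, hb, hy, k1, k2] using k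
    have np0 : ∀ c w : Finset V, c ∈ H → w ∈ H → w.card = 5 → (c ∩ w).card = 3 → c.card = 5 →
        sd c w ⊆ q y → np H c = 0 := fun c w hc hw w5 i3 c5 l => by
      have cw : c ≠ w := by
        rintro rfl
        rw [inter_self] at i3
        omega
      have cy : c ≠ q y := fun e => by
        have : w ⊆ c := fun v hv => by
          by_contra k
          exact k (e ▸ l (mem_sd.2 (Or.inr ⟨k, hv⟩)))
        rw [inter_eq_right.2 this] at i3
        omega
      rw [np, card_eq_zero, filter_eq_empty_iff]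
      intro v hv k
      by_cases r : v ∈ w
      · exact cw (card_le_one.1 k c (mem_star.2 ⟨hc, hv⟩) w (mem_star.2 ⟨hw, r⟩))
      · exact cy (card_le_one.1 k c (mem_star.2 ⟨hc, hv⟩) _
          (mem_star.2 ⟨n.mem y hy, l (mem_sd.2 (Or.inl ⟨hv, r⟩))⟩))
    have pd := h.tr (q a) (q b) ⟨⟨n.mem a ha, n.mem b hb, a5, b5, c3,
      np0 _ _ (n.mem a ha) (n.mem b hb) b5 c3 a5 w,
      np0 _ _ (n.mem b hb) (n.mem a ha) a5 (inter_comm (q a) _ ▸ c3) b5 (sd_comm (q a) _ ▸ w)⟩,
      q y, n.mem y hy, y5, w⟩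
    obtain ⟨z, z1, z2⟩ := lall_false c5
    obtain ⟨v, -, rfl⟩ := s.ex z1
    simp only [Bool.not_eq_false', Bool.and_eq_true, mk_iff ha, mk_iff hb, mk_iff hk] at z2
    rcases (pend_iff (n.mem a ha) (n.mem b hb)).1 pd _ (n.mem k hk) v
      (mem_inter.2 ⟨z2.1.1, z2.1.2⟩) z2.2 with e | e
    exacts [ka (n.inj k hk a ha e), kb (n.inj k hk b hb e)]
  | four a b =>
    intro B D A c _ q R n s
    have c' : (!Nat.beq a b && Nat.blt a m && Nat.blt b m &&
      (Nat.ble 4 (cnt2 B a b) || Nat.ble (dig sp a) (cnt2 B a b))) = true := c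
    simp only [Bool.and_eq_true, Bool.or_eq_true, Nat.blt_eq, Nat.ble_eq, Bool.not_eq_true',
      ← Bool.not_eq_true (Nat.beq _ _), Nat.beq_eq] at c'
    obtain ⟨⟨⟨ab, ha⟩, hb⟩, c4⟩ := c'
    have ne : q a ≠ q b := fun e => ab (n.inj a ha b hb e)
    have k : cnt2 B a b ≤ (q a ∩ q b).card := by
      rw [s.cnt2 ha hb]
      exact card_le_card fun v hv => (mem_filter.1 hv).2
    rcases c4 with c4 | c4
    · have := h.cls.c3 _ (n.mem a ha) _ (n.mem b hb) ne
      omega
    · rw [← n.sz a ha] at c4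
      exact ne (h.mc.not_sub (n.mem a ha) (n.mem b hb) (inter_eq_left.1
        (eq_of_subset_of_card_le inter_subset_left (c4.trans k))))
  | emp =>
    intro B D A c _ q R n s
    have c' : (Nat.beq A 0 && Nat.blt (lsum (fun _ => 1) B) nn) = true := c
    rw [Bool.and_eq_true, Nat.beq_eq, Nat.blt_eq] at c'
    have := s.len h
    obtain ⟨v, hv⟩ : R.Nonempty := card_pos.1 (by omega)
    have k := s.al v hv
    rw [c'.1, Nat.zero_testBit] at k
    cases k

/-- a checked tree excludes the family; `A` contains the codes of all blocks -/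
theorem win (h : Hyp H nn T) (hs' : HsOk m tot = true) {t : Ct}
    (c : chk m sp nn tot (T * 2 ^ m) t [] (iniD m tot) A = true) (n : Nm H m sp q)
    (hA : ∀ v ∈ cov H, A.testBit (cd m q v) = true) : False :=
  chk_sound h hs' t _ _ _ c (fun _ n _ => dok_ini hs' fun i hi => h.mc.nes _ (n.mem i hi)) q
    (cov H) n ⟨Subset.rfl, by simp, hA⟩

end Pool.Agent.Work.MP_d266e7_co.Win
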